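import Pool.Agent.H29.T1.S7

/-!
# T1: FAMK, the number of the elements of the family
-/

set_option autoImplicit false

namespace Pool.T1.FAMKaux

open Polynomial Matrix Pool.HYP Pool.TOW Pool.AVS IsDedekindDomain

/-- The number of monic polynomials with coefficients in given sets. -/
theorem cardMon {R : Type} [CommRing R] [Nontrivial R] (N : ℕ) (A : ℕ → Set R) :
    {f : R[X] | f.Monic ∧ f.natDegree = N ∧ ∀ i < N, f.coeff i ∈ A i}.ncard =
      ∏ i ∈ Finset.range N, (A i).ncard := by
  set S : Set R[X] := {f : R[X] | f.Monic ∧ f.natDegree = N ∧ ∀ i < N, f.coeff i ∈ A i} with hS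
  let F : S → ∀ i : Fin N, A (i : ℕ) := fun f i => ⟨f.1.coeff i, f.2.2.2 i i.2⟩
  have hF : Function.Bijective F := by
    constructor
    · intro f f' h
      apply Subtype.ext
      apply Polynomial.ext
      intro n
      rcases lt_trichotomy n N with hn | hn | hn
      · have := congrFun h ⟨n, hn⟩
        exact congrArg Subtype.val this
      · subst hn
        have h1 := f.2.1.coeff_natDegree
        have h2 := f'.2.1.coeff_natDegree
        rw [f.2.2.1] at h1
        rw [f'.2.2.1] at h2
        rw [h1, h2]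
      · rw [coeff_eq_zero_of_natDegree_lt (by rw [f.2.2.1]; exact hn),
          coeff_eq_zero_of_natDegree_lt (by rw [f'.2.2.1]; exact hn)]
    · intro a
      have hd : (∑ i : Fin N, C ((a i : R)) * X ^ (i : ℕ)).degree < ((N : ℕ) : WithBot ℕ) :=
        degree_sum_fin_lt fun i => (a i : R)
      have hc : ∀ j : Fin N, (X ^ N + ∑ i : Fin N, C ((a i : R)) * X ^ (i : ℕ)).coeff (j : ℕ) =
          (a j : R) := by
        intro j
        rw [coeff_add, coeff_X_pow, if_neg (ne_of_lt j.2), zero_add, finsetSum_coeff]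
        simp only [coeff_C_mul, coeff_X_pow]
        rw [Finset.sum_eq_single j]
        · simp
        · intro b _ hb
          rw [if_neg (fun h => hb (Fin.ext h.symm)), mul_zero]
        · simp
      refine ⟨⟨X ^ N + ∑ i : Fin N, C ((a i : R)) * X ^ (i : ℕ), monic_X_pow_add hd, ?_, ?_⟩, ?_⟩
      · rw [natDegree_add_eq_left_of_degree_lt (by rw [degree_X_pow]; exact hd), natDegree_X_pow]
      · intro i hi
        have := hc ⟨i, hi⟩
        simp only at this
        rw [this]
        exact (a ⟨i, hi⟩).2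
      · funext j
        exact Subtype.ext (hc j)
  rw [← Nat.card_coe_set_eq, Nat.card_congr (Equiv.ofBijective F hF), Nat.card_pi,
    ← Fin.prod_univ_eq_prod_range (fun i => (A i).ncard) N]
  rfl

/-- The norm of a product of distinct primes. -/
theorem cardProd {R : Type} [CommRing R] [IsDedekindDomain R]
    (T : Finset (HeightOneSpectrum R)) :
    Nat.card (R ⧸ ∏ P ∈ T, P.asIdeal) = ∏ P ∈ T, Nm P := by
  classical
  induction T using Finset.induction_on with
  | empty =>
    rw [Finset.prod_empty, Finset.prod_empty, Ideal.one_eq_top]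
    exact Nat.card_unique
  | insert P T hP ih =>
    rw [Finset.prod_insert hP, Finset.prod_insert hP, ← ih]
    have hc : IsCoprime P.asIdeal (∏ Q ∈ T, Q.asIdeal) := by
      apply IsCoprime.prod_right
      intro Q hQ
      have := HeightOneSpectrum.isCoprime_pow_of_ne P Q (fun h => hP (h ▸ hQ)) 1 1
      simpa using this
    have := cardQuot_mul_of_coprime hc
    simpa only [Submodule.cardQuot_apply, Nm] using this

/-- Membership in a product of distinct primes. -/
theorem memProd {R : Type} [CommRing R] [IsDedekindDomain R]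
    (T : Finset (HeightOneSpectrum R)) (a : R) :
    a ∈ ∏ P ∈ T, P.asIdeal ↔ ∀ P ∈ T, a ∈ P.asIdeal := by
  have := HeightOneSpectrum.inf_pow_eq_prod T (fun _ => 1) (fun P : HeightOneSpectrum R => P)
    (fun i _ j _ h => h)
  simp only [pow_one] at this
  rw [← this]
  simp [Submodule.mem_finsetInf]

/-- The maximal ideal of `O`. -/
theorem maxO {R : Type} [CommRing R] [IsDomain R] {K : Type} [Field K] [Algebra R K]
    {O : ValuationSubring K} {π : K} (hR : GR R O π) (w : O) :
    w ∈ IsLocalRing.maximalIdeal O ↔ (w : K) / π ∈ O := by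
  rw [IsLocalRing.mem_maximalIdeal, mem_nonunits_iff]
  constructor
  · intro hw
    by_cases h0 : (w : K) = 0
    · rw [h0, zero_div]
      exact O.zero_mem
    obtain ⟨n, h1, h2⟩ := hR.val w h0
    have hn : 0 < n := by
      by_contra hn
      push Not at hn
      apply hw
      have h3 : (w : K)⁻¹ ∈ O := by
        have h4 : (w : K)⁻¹ = ((w : K) / π ^ n)⁻¹ * π ^ ((-n).toNat) := by
          rw [← zpow_natCast, Int.toNat_of_nonneg (by omega), _root_.zpow_neg]
          have := zpow_ne_zero n hR.pi_ne
          field_simp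
        rw [h4]
        exact O.mul_mem _ _ h2 (O.pow_mem hR.pi_mem _)
      exact IsUnit.of_mul_eq_one ⟨(w : K)⁻¹, h3⟩ (Subtype.ext (mul_inv_cancel₀ h0))
    have h4 : (w : K) / π = ((w : K) / π ^ n) * π ^ ((n - 1).toNat) := by
      rw [← zpow_natCast, Int.toNat_of_nonneg (by omega), zpow_sub₀ hR.pi_ne, zpow_one]
      have := zpow_ne_zero n hR.pi_ne
      have := hR.pi_ne
      field_simp
    rw [h4]
    exact O.mul_mem _ _ h1 (O.pow_mem hR.pi_mem _)
  · intro h hu
    obtain ⟨v, hv⟩ := isUnit_iff_exists_inv.1 hu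
    apply hR.pi_inv
    have h1 : (w : K) * (v : K) = 1 := congrArg Subtype.val hv
    have h2 : π⁻¹ = (w : K) / π * v := by
      rw [div_mul_eq_mul_div, h1, one_div]
    rw [h2]
    exact O.mul_mem _ _ h v.2

/-- Two elements of `O` with the same residue. -/
theorem resEq {R : Type} [CommRing R] [IsDomain R] {K : Type} [Field K] [Algebra R K]
    {O : ValuationSubring K} {π : K} (hR : GR R O π) (z x : O) :
    IsLocalRing.residue O z = IsLocalRing.residue O x ↔ ((z : K) - x) / π ∈ O := by
  rw [← sub_eq_zero, ← map_sub, IsLocalRing.residue_eq_zero_iff, maxO hR]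
  rfl

end Pool.T1.FAMKaux

namespace Pool.T1

open Polynomial Matrix Pool.HYP Pool.TOW Pool.AVS IsDedekindDomain Pool.T1.FAMKaux

theorem famk : FAMKStmt := by
  classical
  intro R _ _ K _ _ _ O π hR hfin ⟨c₀, hC⟩ g D hg hD
  obtain ⟨hdis, hT, hT', htm, htd, hti⟩ := hD
  obtain ⟨N, hN⟩ : ∃ N, N = 2 * g + 1 := ⟨_, rfl⟩
  set I : Ideal R := ∏ P ∈ D.T ∪ D.T', P.asIdeal with hI
  have hI0 : I ≠ ⊥ := Finset.prod_ne_zero_iff.2 (fun P _ => P.ne_bot)
  have hcard : Nat.card (R ⧸ I) = (∏ P ∈ D.T, Nm P) * ∏ P ∈ D.T', Nm P := by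
    rw [hI, cardProd, Finset.prod_union hdis]
  have hq : 1 < qq O := by
    have := hR.res
    exact Finite.one_lt_card
  obtain ⟨tgt, htgt⟩ : ∃ tgt : HeightOneSpectrum R → R[X], tgt = fun P =>
    if P ∈ D.T then (X - C (D.c P)) * D.γ P else D.ρ P := ⟨_, rfl⟩
  have ht1 : ∀ P ∈ D.T, tgt P = (X - C (D.c P)) * D.γ P := by
    intro P hP
    rw [htgt]
    exact if_pos hP
  have ht2 : ∀ P ∈ D.T', tgt P = D.ρ P := by
    intro P hP
    rw [htgt]
    exact if_neg (fun h => Finset.disjoint_left.1 hdis h hP)
  have htgM : ∀ P ∈ D.T ∪ D.T', (tgt P).Monic ∧ (tgt P).natDegree = N := by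
    intro P hP
    rcases Finset.mem_union.1 hP with hP | hP
    · rw [ht1 P hP]
      obtain ⟨h1, h2, h3⟩ := hT P hP
      refine ⟨(monic_X_sub_C _).mul h1, ?_⟩
      rw [(monic_X_sub_C _).natDegree_mul h1, natDegree_X_sub_C, h2, hN]
      ring
    · rw [ht2 P hP]
      obtain ⟨h1, h2, h3⟩ := hT' P hP
      exact ⟨h1, by rw [h2, hN]⟩
  have hr : ∀ n : ℕ, ∃ r : R, ∀ P ∈ D.T ∪ D.T', r - (tgt P).coeff n ∈ P.asIdeal := by
    intro n
    obtain ⟨r, hr⟩ := Ideal.exists_forall_sub_mem_ideal
      (I := fun P : (D.T ∪ D.T' : Finset (HeightOneSpectrum R)) => P.1.asIdeal)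
      (fun P Q hPQ => HeightOneSpectrum.isCoprime_of_ne P.1 Q.1 (fun h => hPQ (Subtype.ext h)))
      (fun P => (tgt P.1).coeff n)
    exact ⟨r, fun P hP => hr ⟨P, hP⟩⟩
  choose r hr using hr
  have hx : ∀ n : ℕ, ∃ x : O, IsLocalRing.residue O x = D.top.coeff n :=
    fun n => IsLocalRing.residue_surjective _
  choose x hx using hx
  refine ⟨c₀ * Nat.card (R ⧸ I), fun h hh => ?_⟩
  let A : ℕ → Set R := fun n => {a ∈ Lm R O π (((N - n) * h : ℕ) : ℤ) |
    a - r n ∈ I ∧ (algebraMap R K a * π ^ ((N - n) * h) - x n) / π ∈ O}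
  let B : ℕ → Set R := fun n => Lm R O π (((N - n) * h : ℕ) : ℤ)
  have h1mem : (1 : R) ∈ Lm R O π ((0 * h : ℕ) : ℤ) := by
    simp only [Lm, Set.mem_setOf_eq, map_one, zero_mul, Nat.cast_zero, zpow_zero, mul_one]
    exact O.one_mem
  have hAll : All R O π g h =
      {f : R[X] | f.Monic ∧ f.natDegree = N ∧ ∀ i < N, f.coeff i ∈ B i} := by
    ext f
    simp only [All, Set.mem_setOf_eq, ← hN]
    constructor
    · rintro ⟨hm, hd, hc⟩
      refine ⟨hm, hd, fun n hn => ?_⟩
      have := hc (N - n) (Nat.sub_le _ _)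
      rwa [Nat.sub_sub_self hn.le] at this
    · rintro ⟨hm, hd, hc⟩
      refine ⟨hm, hd, fun i hi => ?_⟩
      rcases Nat.eq_zero_or_pos i with rfl | hi0
      · rw [Nat.sub_zero]
        have h2 := hm.coeff_natDegree
        rw [hd] at h2
        rw [h2]
        exact h1mem
      · have := hc (N - i) (by omega)
        simp only [B] at this
        rwa [Nat.sub_sub_self hi] at this
  have hFam : Fam π g D h =
      {f : R[X] | f.Monic ∧ f.natDegree = N ∧ ∀ i < N, f.coeff i ∈ A i} := by
    ext f
    rw [Fam, Set.mem_setOf_eq, hAll]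
    simp only [Top, Zer, Set.mem_setOf_eq, ← hN]
    constructor
    · rintro ⟨⟨hm, hd, hc⟩, htop, hz, hz'⟩
      refine ⟨hm, hd, fun n hn => ⟨hc n hn, ?_, ?_⟩⟩
      · rw [hI, memProd]
        intro P hP
        have h1 := hr n P hP
        have h2 : f.coeff n - (tgt P).coeff n ∈ P.asIdeal := by
          rcases Finset.mem_union.1 hP with hP | hP
          · have := hz P hP n
            rwa [coeff_sub, ← ht1 P hP] at this
          · have := hz' P hP n
            rwa [coeff_sub, ← ht2 P hP] at this
        have := P.asIdeal.sub_mem h2 h1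
        rwa [sub_sub_sub_cancel_right] at this
      · have h1 : algebraMap R K (f.coeff n) * π ^ ((N - n) * h) ∈ O := by
          have := hc n hn
          simp only [B, Lm, Set.mem_setOf_eq, zpow_natCast] at this
          exact this
        have h2 := htop (N - n) (Nat.sub_le _ _) ⟨_, h1⟩
          (by simp only [Nat.sub_sub_self hn.le])
        rw [Nat.sub_sub_self hn.le, ← hx n, resEq hR] at h2
        exact h2
    · rintro ⟨hm, hd, hA⟩
      have hcN : f.coeff N = 1 := by
        have h2 := hm.coeff_natDegree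
        rwa [hd] at h2
      have key : ∀ P ∈ D.T ∪ D.T', ∀ n, f.coeff n - (tgt P).coeff n ∈ P.asIdeal := by
        intro P hP n
        rcases lt_trichotomy n N with hn | hn | hn
        · have h1 := (hA n hn).2.1
          rw [hI, memProd] at h1
          have := P.asIdeal.add_mem (h1 P hP) (hr n P hP)
          rwa [sub_add_sub_cancel] at this
        · subst hn
          have h3 := (htgM P hP).1.coeff_natDegree
          rw [(htgM P hP).2] at h3
          rw [hcN, h3, sub_self]
          exact P.asIdeal.zero_mem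
        · rw [coeff_eq_zero_of_natDegree_lt (by rw [hd]; exact hn),
            coeff_eq_zero_of_natDegree_lt (by rw [(htgM P hP).2]; exact hn), sub_self]
          exact P.asIdeal.zero_mem
      refine ⟨⟨hm, hd, fun n hn => (hA n hn).1⟩, ?_, ?_, ?_⟩
      · intro i hi z hz
        rcases Nat.eq_zero_or_pos i with rfl | hi0
        · rw [Nat.sub_zero] at hz ⊢
          rw [hcN, map_one, zero_mul, pow_zero, mul_one] at hz
          have h3 := htm.coeff_natDegree
          rw [htd, ← hN] at h3
          have h4 : z = 1 := Subtype.ext hz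
          rw [h3, h4, map_one]
        · have h1 := (hA (N - i) (by omega)).2.2
          rw [Nat.sub_sub_self hi, ← hz, ← resEq hR, hx] at h1
          exact h1
      · intro P hP n
        have := key P (Finset.mem_union_left _ hP) n
        rwa [ht1 P hP, ← coeff_sub] at this
      · intro P hP n
        have := key P (Finset.mem_union_right _ hP) n
        rwa [ht2 P hP, ← coeff_sub] at this
  have hcount : ∀ n ∈ Finset.range N,
      (B n).ncard = (A n).ncard * Nat.card (R ⧸ I) * qq O := by
    intro n hn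
    have hn' := Finset.mem_range.1 hn
    refine (hC I ((N - n) * h) hI0 ?_ (r n) (x n) (x n).2).symm
    have h1 : c₀ * Nat.card (R ⧸ I) ≤ (N - n) * h :=
      hh.trans (Nat.le_mul_of_pos_left h (by omega))
    exact h1.trans (Nat.lt_pow_self hq).le
  rw [hFam, hAll, cardMon, cardMon, Finset.prod_congr rfl hcount, Finset.prod_mul_distrib,
    Finset.prod_mul_distrib, Finset.prod_const, Finset.prod_const, Finset.card_range, hcard,
    mul_pow, ← Finset.prod_pow, ← Finset.prod_pow, ← hN]
  ring

end Pool.T1
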